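import Pool.Agent.H17.EX.CNS

/-!
Row CON (EQP = EXPH, MP_0f8dca_lc), second form: the events are those of the full sets
`{i | sc i ≤ sc j}`. The blocks are replaced by uniform blocks in the order of decreasing scale.
-/

set_option autoImplicit false
set_option linter.unusedSectionVars false

namespace Pool.Agent.H17.XX

open Finset Function Pool.Agent.H17.EX

/-- the coordinates of scale at most that of `j` -/
def tie {I : Type} [Fintype I] (sc : I → ℕ) (j : I) : Finset I := univ.filter fun i => sc i ≤ sc j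

section

variable {I : Type} [Fintype I] [DecidableEq I] {T : I → Type} [∀ j, Fintype (T j)]
  [∀ j, DecidableEq (T j)]

/-- one step, with the events of a larger set -/
theorem stepS (m : Bool → ∀ j, T j → ℝ) (m0 : ∀ j, T j → ℝ) (f : (∀ j, T j) → I → Bool)
    (hm : ∀ b j p, 0 ≤ m b j p) (hm1 : ∀ b j, ∑ p, m b j p ≤ 1) (hm0 : ∀ j p, 0 ≤ m0 j p)
    (h01 : ∀ j, ∑ p, m0 j p = 1) (D S : Finset I) (hS : D ⊆ S) (j : I) (hj : j ∈ D) (F : (∀ j, T j) → ℝ)
    (e t : ℝ) (ht : 0 ≤ t)
    (H : ∀ (κ : I → Bool) (P : ∀ j, T j),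
      |∑ p, m (κ j) j p * (F (update P j p) * evC f S κ (update P j p)) -
        ∑ p, m0 j p * (F (update P j p) * evC f S κ (update P j p))| ≤
        e * ∑ p, m0 j p * evC f S κ (update P j p) + t) :
    |∑ P, wC m m0 f D P * F P - ∑ P, wC m m0 f (D.erase j) P * F P| ≤
      e * ∑ P, wC m m0 f (D.erase j) P + 2 ^ S.card * t := by
  have hone : ∑ P, wC m m0 f (D.erase j) P = ∑ P, wC m m0 f (D.erase j) P * (fun _ => (1 : ℝ)) P :=
    sum_congr rfl fun P _ => (mul_one _).symm
  rw [hone, wC_sum m m0 f S D hS F, wC_sum m m0 f S (D.erase j) ((erase_subset j D).trans hS) F,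
    wC_sum m m0 f S (D.erase j) ((erase_subset j D).trans hS) (fun _ => 1), ← sum_sub_distrib]
  -- one set of answers
  have key : ∀ A ∈ S.powerset,
      |∑ P, (∏ i, wA m m0 D A i (P i)) * (F P * evC f S (kA A) P) -
        ∑ P, (∏ i, wA m m0 (D.erase j) A i (P i)) * (F P * evC f S (kA A) P)| ≤
      e * ∑ P, (∏ i, wA m m0 (D.erase j) A i (P i)) * (1 * evC f S (kA A) P) + t := by
    intro A _
    -- both sums after resampling
    have e1 : ∀ (μ : T j → ℝ) (G : (∀ i, T i) → ℝ),
        ∑ P : ∀ i, T i, (μ (P j) * ∏ i ∈ univ.erase j, wA m m0 D A i (P i)) * G P =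
        ∑ P : ∀ i, T i, (∏ i, wA m m0 (D.erase j) A i (P i)) * ∑ p, μ p * G (update P j p) := by
      intro μ G
      rw [resampleD j (m0 j) (h01 j)]
      refine sum_congr rfl fun P _ => ?_
      rw [wA_split', mul_assoc]
      congr 1
      rw [mul_sum]
      refine sum_congr rfl fun p _ => ?_
      rw [rest_update, update_self]
      ring
    have e2 : ∑ P, (∏ i, wA m m0 D A i (P i)) * (F P * evC f S (kA A) P) =
        ∑ P : ∀ i, T i, (∏ i, wA m m0 (D.erase j) A i (P i)) *
          ∑ p, m (kA A j) j p * (F (update P j p) * evC f S (kA A) (update P j p)) := by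
      rw [← e1 (m (kA A j) j) fun P => F P * evC f S (kA A) P]
      exact sum_congr rfl fun P _ => by rw [wA_split m m0 D A j hj P]
    have e3 : ∀ G : (∀ i, T i) → ℝ, ∑ P, (∏ i, wA m m0 (D.erase j) A i (P i)) * G P =
        ∑ P : ∀ i, T i, (∏ i, wA m m0 (D.erase j) A i (P i)) *
          ∑ p, m0 j p * G (update P j p) := by
      intro G
      rw [← e1 (m0 j) G]
      exact sum_congr rfl fun P _ => by rw [wA_split' m m0 D A j P]
    have hnn : ∀ P : ∀ i, T i, 0 ≤ ∏ i, wA m m0 (D.erase j) A i (P i) := fun P =>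
      prod_nonneg fun i _ => wA_nn m m0 hm hm0 (D.erase j) A i (P i)
    rw [e2, e3 fun P => F P * evC f S (kA A) P, e3 fun P => 1 * evC f S (kA A) P,
      ← sum_sub_distrib]
    calc |∑ P : ∀ i, T i, ((∏ i, wA m m0 (D.erase j) A i (P i)) *
            ∑ p, m (kA A j) j p * (F (update P j p) * evC f S (kA A) (update P j p)) -
          (∏ i, wA m m0 (D.erase j) A i (P i)) *
            ∑ p, m0 j p * (F (update P j p) * evC f S (kA A) (update P j p)))|
        ≤ ∑ P : ∀ i, T i, |(∏ i, wA m m0 (D.erase j) A i (P i)) *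
            ∑ p, m (kA A j) j p * (F (update P j p) * evC f S (kA A) (update P j p)) -
          (∏ i, wA m m0 (D.erase j) A i (P i)) *
            ∑ p, m0 j p * (F (update P j p) * evC f S (kA A) (update P j p))| :=
          abs_sum_le_sum_abs _ _
      _ ≤ ∑ P : ∀ i, T i, (∏ i, wA m m0 (D.erase j) A i (P i)) *
            (e * ∑ p, m0 j p * evC f S (kA A) (update P j p) + t) := by
          refine sum_le_sum fun P _ => ?_
          rw [← mul_sub, abs_mul, abs_of_nonneg (hnn P)]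
          exact mul_le_mul_of_nonneg_left (H (kA A) P) (hnn P)
      _ = e * ∑ P : ∀ i, T i, (∏ i, wA m m0 (D.erase j) A i (P i)) *
            ∑ p, m0 j p * (1 * evC f S (kA A) (update P j p)) +
          (∑ P : ∀ i, T i, ∏ i, wA m m0 (D.erase j) A i (P i)) * t := by
          rw [sum_congr rfl fun P _ => mul_add (∏ i, wA m m0 (D.erase j) A i (P i)) _ _,
            sum_add_distrib, sum_mul, mul_sum]
          congr 1
          refine sum_congr rfl fun P _ => ?_
          simp only [one_mul]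
          ring
      _ ≤ _ := by
          have h1 := mul_le_mul_of_nonneg_right
            (mass_le m m0 hm hm1 hm0 h01 (D.erase j) A) ht
          linarith
  calc |∑ A ∈ S.powerset, (∑ P, (∏ i, wA m m0 D A i (P i)) * (F P * evC f S (kA A) P) -
        ∑ P, (∏ i, wA m m0 (D.erase j) A i (P i)) * (F P * evC f S (kA A) P))|
      ≤ ∑ A ∈ S.powerset, |∑ P, (∏ i, wA m m0 D A i (P i)) * (F P * evC f S (kA A) P) -
        ∑ P, (∏ i, wA m m0 (D.erase j) A i (P i)) * (F P * evC f S (kA A) P)| :=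
        abs_sum_le_sum_abs _ _
    _ ≤ ∑ A ∈ S.powerset,
        (e * ∑ P, (∏ i, wA m m0 (D.erase j) A i (P i)) * (1 * evC f S (kA A) P) + t) :=
        sum_le_sum key
    _ = _ := by
        rw [sum_add_distrib, ← mul_sum, sum_const, card_powerset, nsmul_eq_mul]
        push_cast
        ring

/-- the mass -/
theorem massS (m : Bool → ∀ j, T j → ℝ) (m0 : ∀ j, T j → ℝ) (f : (∀ j, T j) → I → Bool)
    (sc : I → ℕ) (ε τ : I → ℝ)
    (hm : ∀ b j p, 0 ≤ m b j p) (hm1 : ∀ b j, ∑ p, m b j p ≤ 1) (hm0 : ∀ j p, 0 ≤ m0 j p)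
    (h01 : ∀ j, ∑ p, m0 j p = 1) (hε : ∀ j, 0 ≤ ε j) (hτ : ∀ j, 0 ≤ τ j)
    (H : ∀ (j : I) (κ : I → Bool) (P : ∀ j, T j),
      |∑ p, m (κ j) j p * evC f (tie sc j) κ (update P j p) -
        ∑ p, m0 j p * evC f (tie sc j) κ (update P j p)| ≤
        ε j * ∑ p, m0 j p * evC f (tie sc j) κ (update P j p) + τ j)
    (hs : ∑ j, (ε j + 2 ^ (tie sc j).card * τ j) ≤ 1 / 8) (n : ℕ) :
    ∀ D : Finset I, D.card = n → |∑ P, wC m m0 f D P - 1| ≤
      2 * ∑ j ∈ D, (ε j + 2 ^ (tie sc j).card * τ j) := by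
  obtain ⟨η, hη⟩ : ∃ η : I → ℝ, η = fun j =>
    (ε j + 2 ^ (tie sc j).card * τ j) := ⟨_, rfl⟩
  have hηj : ∀ j, η j = ε j + 2 ^ (tie sc j).card * τ j := fun j => by
    rw [hη]
  have hη0 : ∀ j, 0 ≤ η j := fun j => by
    rw [hηj]
    have := hτ j
    have := hε j
    positivity
  simp only [← hηj] at hs ⊢
  induction n with
  | zero =>
    intro D hD
    rw [card_eq_zero] at hD
    subst hD
    have h1 : ∑ P, wC m m0 f ∅ P = 1 := by
      have h2 : ∀ P, wC m m0 f ∅ P = ∏ i, m0 i (P i) := by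
        intro P
        unfold wC
        simp
      rw [sum_congr rfl fun P _ => h2 P, ← Fintype.prod_sum]
      exact prod_eq_one fun i _ => h01 i
    rw [h1]
    simp
  | succ n ih =>
    intro D hD
    have hne : D.Nonempty := by
      rw [← card_pos]
      omega
    obtain ⟨j, hj, hmax⟩ := exists_max_image D sc hne
    have hD' : (D.erase j).card = n := by
      rw [card_erase_of_mem hj]
      omega
    have ih1 := ih (D.erase j) hD'
    have hsubT : D ⊆ tie sc j := fun i hi => mem_filter.2 ⟨mem_univ i, hmax i hi⟩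
    have hst := stepS m m0 f hm hm1 hm0 h01 D (tie sc j) hsubT j hj (fun _ => 1) (ε j) (τ j)
      (hτ j) (fun κ P => by
        simp only [one_mul]
        exact H j κ P)
    simp only [mul_one] at hst
    have hsub : ∑ i ∈ D.erase j, η i ≤ 1 / 8 :=
      (sum_le_sum_of_subset_of_nonneg (subset_univ _) fun i _ _ => hη0 i).trans hs
    have hZ : ∑ P, wC m m0 f (D.erase j) P ≤ 2 := by
      have := (abs_le.1 ih1).2
      linarith
    have hstep : |∑ P, wC m m0 f D P - ∑ P, wC m m0 f (D.erase j) P| ≤ 2 * η j := by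
      refine hst.trans ?_
      rw [hηj]
      have h1 := mul_le_mul_of_nonneg_left hZ (hε j)
      have h2 : 0 ≤ (2 : ℝ) ^ (tie sc j).card * τ j :=
        mul_nonneg (by positivity) (hτ j)
      linarith
    rw [← add_sum_erase D η hj]
    have h3 := abs_sub_le (∑ P, wC m m0 f D P) (∑ P, wC m m0 f (D.erase j) P) 1
    linarith

/-- the test function -/
theorem testS (m : Bool → ∀ j, T j → ℝ) (m0 : ∀ j, T j → ℝ) (f : (∀ j, T j) → I → Bool)
    (sc : I → ℕ) (ε τ : I → ℝ)
    (hm : ∀ b j p, 0 ≤ m b j p) (hm1 : ∀ b j, ∑ p, m b j p ≤ 1) (hm0 : ∀ j p, 0 ≤ m0 j p)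
    (h01 : ∀ j, ∑ p, m0 j p = 1) (hε : ∀ j, 0 ≤ ε j) (hτ : ∀ j, 0 ≤ τ j)
    (hZ : ∀ D : Finset I, ∑ P, wC m m0 f D P ≤ 2) (F : (∀ j, T j) → ℝ) (s : ℕ)
    (H : ∀ (j : I) (κ : I → Bool) (P : ∀ j, T j), s ≤ sc j →
      |∑ p, m (κ j) j p * (F (update P j p) * evC f (tie sc j) κ (update P j p)) -
        ∑ p, m0 j p * (F (update P j p) * evC f (tie sc j) κ (update P j p))| ≤
        ε j * ∑ p, m0 j p * evC f (tie sc j) κ (update P j p) + τ j) (n : ℕ) :
    ∀ D : Finset I, D.card = n →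
      |∑ P, wC m m0 f D P * F P - ∑ P, wC m m0 f (D.filter fun i => sc i < s) P * F P| ≤
      2 * ∑ j ∈ D.filter fun j => s ≤ sc j,
        (ε j + 2 ^ (tie sc j).card * τ j) := by
  obtain ⟨η, hη⟩ : ∃ η : I → ℝ, η = fun j =>
    (ε j + 2 ^ (tie sc j).card * τ j) := ⟨_, rfl⟩
  have hηj : ∀ j, η j = ε j + 2 ^ (tie sc j).card * τ j := fun j => by
    rw [hη]
  have hη0 : ∀ j, 0 ≤ η j := fun j => by
    rw [hηj]
    have := hτ j
    have := hε j
    positivity
  simp only [← hηj]
  induction n with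
  | zero =>
    intro D hD
    rw [card_eq_zero] at hD
    subst hD
    simp
  | succ n ih =>
    intro D hD
    by_cases hall : ∀ i ∈ D, sc i < s
    · rw [filter_true_of_mem hall, sub_self, abs_zero]
      have : 0 ≤ ∑ j ∈ D.filter fun j => s ≤ sc j, η j := sum_nonneg fun j _ => hη0 j
      linarith
    · push Not at hall
      obtain ⟨i0, hi0, hs0⟩ := hall
      obtain ⟨j, hj, hmax⟩ := exists_max_image D sc ⟨i0, hi0⟩
      have hsj : s ≤ sc j := hs0.trans (hmax i0 hi0)
      have hD' : (D.erase j).card = n := by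
        rw [card_erase_of_mem hj]
        omega
      have ih1 := ih (D.erase j) hD'
      have hsubT : D ⊆ tie sc j := fun i hi => mem_filter.2 ⟨mem_univ i, hmax i hi⟩
      have hst := stepS m m0 f hm hm1 hm0 h01 D (tie sc j) hsubT j hj F (ε j) (τ j) (hτ j)
        (fun κ P => H j κ P hsj)
      have hstep : |∑ P, wC m m0 f D P * F P - ∑ P, wC m m0 f (D.erase j) P * F P| ≤
          2 * η j := by
        refine hst.trans ?_
        rw [hηj]
        have h1 := mul_le_mul_of_nonneg_left (hZ (D.erase j)) (hε j)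
        have h2 : 0 ≤ (2 : ℝ) ^ (tie sc j).card * τ j :=
          mul_nonneg (by positivity) (hτ j)
        linarith
      have e1 : (D.erase j).filter (fun i => sc i < s) = D.filter fun i => sc i < s := by
        rw [filter_erase, erase_eq_of_notMem]
        rw [mem_filter, not_and]
        intro _
        omega
      have e2 : (D.erase j).filter (fun i => s ≤ sc i) =
          (D.filter fun i => s ≤ sc i).erase j := by
        rw [filter_erase]
      rw [e1, e2] at ih1
      rw [← add_sum_erase (D.filter fun i => s ≤ sc i) η (mem_filter.2 ⟨hj, hsj⟩)]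
      have h3 := abs_sub_le (∑ P, wC m m0 f D P * F P) (∑ P, wC m m0 f (D.erase j) P * F P)
        (∑ P, wC m m0 f (D.filter fun i => sc i < s) P * F P)
      linarith

end

/-- The law of the consistent contents, for general laws. -/
theorem cnsS (I : Type) [Fintype I] [DecidableEq I] (T : I → Type) [∀ j, Fintype (T j)]
    [∀ j, DecidableEq (T j)] (m : Bool → ∀ j, T j → ℝ) (m0 : ∀ j, T j → ℝ)
    (f : (∀ j, T j) → I → Bool) (sc : I → ℕ) (ε τ : I → ℝ)
    (hm : ∀ b j p, 0 ≤ m b j p) (hm1 : ∀ b j, ∑ p, m b j p ≤ 1) (hm0 : ∀ j p, 0 ≤ m0 j p)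
    (h01 : ∀ j, ∑ p, m0 j p = 1) (hε : ∀ j, 0 ≤ ε j) (hτ : ∀ j, 0 ≤ τ j)
    (H : ∀ (j : I) (κ : I → Bool) (P : ∀ j, T j),
      |∑ p, m (κ j) j p * evC f (tie sc j) κ (update P j p) -
        ∑ p, m0 j p * evC f (tie sc j) κ (update P j p)| ≤
        ε j * ∑ p, m0 j p * evC f (tie sc j) κ (update P j p) + τ j)
    (hs : ∑ j, (ε j + 2 ^ (tie sc j).card * τ j) ≤ 1 / 8) :
    |∑ P, wC m m0 f univ P - 1| ≤ 1 / 4 ∧
    ∀ (F : (∀ j, T j) → ℝ) (s : ℕ),
      (∀ (j : I) (κ : I → Bool) (P : ∀ j, T j), s ≤ sc j →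
        |∑ p, m (κ j) j p * (F (update P j p) * evC f (tie sc j) κ (update P j p)) -
          ∑ p, m0 j p * (F (update P j p) * evC f (tie sc j) κ (update P j p))| ≤
          ε j * ∑ p, m0 j p * evC f (tie sc j) κ (update P j p) + τ j) →
      |∑ P, wC m m0 f univ P * F P - ∑ P, wC m m0 f (univ.filter fun i => sc i < s) P * F P| ≤
        2 * ∑ j ∈ univ.filter fun j => s ≤ sc j, (ε j + 2 ^ (tie sc j).card * τ j) := by
  have hη0 : ∀ j, 0 ≤ ε j + 2 ^ (tie sc j).card * τ j := fun j => by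
    have := hτ j
    have := hε j
    positivity
  have hmass : ∀ D : Finset I, |∑ P, wC m m0 f D P - 1| ≤ 1 / 4 := by
    intro D
    refine (massS m m0 f sc ε τ hm hm1 hm0 h01 hε hτ H hs D.card D rfl).trans ?_
    have := (sum_le_sum_of_subset_of_nonneg (subset_univ D) fun i _ _ => hη0 i).trans hs
    linarith
  refine ⟨hmass univ, fun F s HF => ?_⟩
  exact testS m m0 f sc ε τ hm hm1 hm0 h01 hε hτ (fun D => by
    have := (abs_le.1 (hmass D)).2
    linarith) F s HF (univ : Finset I).card univ rfl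

end Pool.Agent.H17.XX
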