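import Pool.Agent.H17.XX.CNS
import Pool.Agent.H18.XX.TB

/-!
Row CON of exh_modules (MP_0f8dca_lc).
-/

set_option autoImplicit false
set_option linter.unusedSectionVars false

namespace Pool.Agent.H17.XX

open Finset Function Pool.Agent.H17.EX

section

variable {I : Type} [Fintype I] [DecidableEq I] {T : I → Type} [∀ j, Fintype (T j)]
  [∀ j, DecidableEq (T j)]

/-- the mass -/
theorem massT (m : Bool → ∀ j, T j → ℝ) (m0 : ∀ j, T j → ℝ) (f : (∀ j, T j) → I → Bool)
    (sc : I → ℕ) (ε τ : I → ℝ)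
    (hm : ∀ b j p, 0 ≤ m b j p) (hm1 : ∀ b j, ∑ p, m b j p ≤ 1) (hm0 : ∀ j p, 0 ≤ m0 j p)
    (h01 : ∀ j, ∑ p, m0 j p = 1) (hε : ∀ j, 0 ≤ ε j) (hτ : ∀ j, 0 ≤ τ j)
    (H : ∀ (j : I) (κ : I → Bool) (P : ∀ j, T j),
      |∑ p, m (κ j) j p * evC f (tie sc j) κ (update P j p) -
        ∑ p, m0 j p * evC f (tie sc j) κ (update P j p)| ≤
        ε j * ∑ p, m0 j p * evC f (tie sc j) κ (update P j p) + τ j)
    (hs : ∑ j, (2 * ε j + 2 ^ (tie sc j).card * τ j) ≤ 1 / 4) (n : ℕ) :
    ∀ D : Finset I, D.card = n → |∑ P, wC m m0 f D P - 1| ≤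
      ∑ j ∈ D, (2 * ε j + 2 ^ (tie sc j).card * τ j) := by
  obtain ⟨η, hη⟩ : ∃ η : I → ℝ, η = fun j =>
    (2 * ε j + 2 ^ (tie sc j).card * τ j) := ⟨_, rfl⟩
  have hηj : ∀ j, η j = 2 * ε j + 2 ^ (tie sc j).card * τ j := fun j => by
    rw [hη]
  have hη0 : ∀ j, 0 ≤ η j := fun j => by
    rw [hηj]
    have := hτ j
    have := hε j
    positivity
  simp only [← hηj] at hs ⊢
  induction n with
  | zero =>
    intro D hD
    rw [card_eq_zero] at hD
    subst hD
    have h1 : ∑ P, wC m m0 f ∅ P = 1 := by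
      have h2 : ∀ P, wC m m0 f ∅ P = ∏ i, m0 i (P i) := by
        intro P
        unfold wC
        simp
      rw [sum_congr rfl fun P _ => h2 P, ← Fintype.prod_sum]
      exact prod_eq_one fun i _ => h01 i
    rw [h1]
    simp
  | succ n ih =>
    intro D hD
    have hne : D.Nonempty := by
      rw [← card_pos]
      omega
    obtain ⟨j, hj, hmax⟩ := exists_max_image D sc hne
    have hD' : (D.erase j).card = n := by
      rw [card_erase_of_mem hj]
      omega
    have ih1 := ih (D.erase j) hD'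
    have hsubT : D ⊆ tie sc j := fun i hi => mem_filter.2 ⟨mem_univ i, hmax i hi⟩
    have hst := stepS m m0 f hm hm1 hm0 h01 D (tie sc j) hsubT j hj (fun _ => 1) (ε j) (τ j)
      (hτ j) (fun κ P => by
        simp only [one_mul]
        exact H j κ P)
    simp only [mul_one] at hst
    have hsub : ∑ i ∈ D.erase j, η i ≤ 1 / 4 :=
      (sum_le_sum_of_subset_of_nonneg (subset_univ _) fun i _ _ => hη0 i).trans hs
    have hZ : ∑ P, wC m m0 f (D.erase j) P ≤ 2 := by
      have := (abs_le.1 ih1).2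
      linarith
    have hstep : |∑ P, wC m m0 f D P - ∑ P, wC m m0 f (D.erase j) P| ≤ η j := by
      refine hst.trans ?_
      rw [hηj]
      have h1 := mul_le_mul_of_nonneg_left hZ (hε j)
      have h2 : 0 ≤ (2 : ℝ) ^ (tie sc j).card * τ j :=
        mul_nonneg (by positivity) (hτ j)
      linarith
    rw [← add_sum_erase D η hj]
    have h3 := abs_sub_le (∑ P, wC m m0 f D P) (∑ P, wC m m0 f (D.erase j) P) 1
    linarith

/-- the test function -/
theorem testT (m : Bool → ∀ j, T j → ℝ) (m0 : ∀ j, T j → ℝ) (f : (∀ j, T j) → I → Bool)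
    (sc : I → ℕ) (ε τ : I → ℝ)
    (hm : ∀ b j p, 0 ≤ m b j p) (hm1 : ∀ b j, ∑ p, m b j p ≤ 1) (hm0 : ∀ j p, 0 ≤ m0 j p)
    (h01 : ∀ j, ∑ p, m0 j p = 1) (hε : ∀ j, 0 ≤ ε j) (hτ : ∀ j, 0 ≤ τ j)
    (hZ : ∀ D : Finset I, ∑ P, wC m m0 f D P ≤ 2) (F : (∀ j, T j) → ℝ) (s : ℕ)
    (H : ∀ (j : I) (κ : I → Bool) (P : ∀ j, T j), s ≤ sc j →
      |∑ p, m (κ j) j p * (F (update P j p) * evC f (tie sc j) κ (update P j p)) -
        ∑ p, m0 j p * (F (update P j p) * evC f (tie sc j) κ (update P j p))| ≤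
        ε j * ∑ p, m0 j p * evC f (tie sc j) κ (update P j p) + τ j) (n : ℕ) :
    ∀ D : Finset I, D.card = n →
      |∑ P, wC m m0 f D P * F P - ∑ P, wC m m0 f (D.filter fun i => sc i < s) P * F P| ≤
      ∑ j ∈ D.filter fun j => s ≤ sc j,
        (2 * ε j + 2 ^ (tie sc j).card * τ j) := by
  obtain ⟨η, hη⟩ : ∃ η : I → ℝ, η = fun j =>
    (2 * ε j + 2 ^ (tie sc j).card * τ j) := ⟨_, rfl⟩
  have hηj : ∀ j, η j = 2 * ε j + 2 ^ (tie sc j).card * τ j := fun j => by
    rw [hη]
  have hη0 : ∀ j, 0 ≤ η j := fun j => by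
    rw [hηj]
    have := hτ j
    have := hε j
    positivity
  simp only [← hηj]
  induction n with
  | zero =>
    intro D hD
    rw [card_eq_zero] at hD
    subst hD
    simp
  | succ n ih =>
    intro D hD
    by_cases hall : ∀ i ∈ D, sc i < s
    · rw [filter_true_of_mem hall, sub_self, abs_zero]
      have : 0 ≤ ∑ j ∈ D.filter fun j => s ≤ sc j, η j := sum_nonneg fun j _ => hη0 j
      linarith
    · push Not at hall
      obtain ⟨i0, hi0, hs0⟩ := hall
      obtain ⟨j, hj, hmax⟩ := exists_max_image D sc ⟨i0, hi0⟩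
      have hsj : s ≤ sc j := hs0.trans (hmax i0 hi0)
      have hD' : (D.erase j).card = n := by
        rw [card_erase_of_mem hj]
        omega
      have ih1 := ih (D.erase j) hD'
      have hsubT : D ⊆ tie sc j := fun i hi => mem_filter.2 ⟨mem_univ i, hmax i hi⟩
      have hst := stepS m m0 f hm hm1 hm0 h01 D (tie sc j) hsubT j hj F (ε j) (τ j) (hτ j)
        (fun κ P => H j κ P hsj)
      have hstep : |∑ P, wC m m0 f D P * F P - ∑ P, wC m m0 f (D.erase j) P * F P| ≤
          η j := by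
        refine hst.trans ?_
        rw [hηj]
        have h1 := mul_le_mul_of_nonneg_left (hZ (D.erase j)) (hε j)
        have h2 : 0 ≤ (2 : ℝ) ^ (tie sc j).card * τ j :=
          mul_nonneg (by positivity) (hτ j)
        linarith
      have e1 : (D.erase j).filter (fun i => sc i < s) = D.filter fun i => sc i < s := by
        rw [filter_erase, erase_eq_of_notMem]
        rw [mem_filter, not_and]
        intro _
        omega
      have e2 : (D.erase j).filter (fun i => s ≤ sc i) =
          (D.filter fun i => s ≤ sc i).erase j := by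
        rw [filter_erase]
      rw [e1, e2] at ih1
      rw [← add_sum_erase (D.filter fun i => s ≤ sc i) η (mem_filter.2 ⟨hj, hsj⟩)]
      have h3 := abs_sub_le (∑ P, wC m m0 f D P * F P) (∑ P, wC m m0 f (D.erase j) P * F P)
        (∑ P, wC m m0 f (D.filter fun i => sc i < s) P * F P)
      linarith

end

theorem pf_CON : Pool.Agent.H18.XX.T_CON := by
  classical
  intro I _ _ T _ ord m₀ m f ε τ hm0 h01 hm hm1 hε hτ H hs
  have hev : ∀ (j : I) (κ : I → Bool) (P : ∀ j, T j),
      Pool.Agent.H70.OQ.ic (∀ i, ord i ≤ ord j → f P i = κ i) = evC f (tie ord j) κ P := by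
    intro j κ P
    unfold Pool.Agent.H70.OQ.ic evC tie
    by_cases h : ∀ i, ord i ≤ ord j → f P i = κ i
    · rw [if_pos h, if_pos]
      intro i hi
      exact h i (mem_filter.1 hi).2
    · rw [if_neg h, if_neg]
      intro h'
      exact h fun i hi => h' i (mem_filter.2 ⟨mem_univ i, hi⟩)
  have hev1 : ∀ (j : I) (κ : I → Bool) (P : ∀ j, T j) (p : T j),
      Pool.Agent.H70.OQ.ic (∀ i, ord i ≤ ord j → f (update P j p) i = κ i) =
        evC f (tie ord j) κ (update P j p) := fun j κ P p => hev j κ (update P j p)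
  have H1 : ∀ (j : I) (κ : I → Bool) (P : ∀ j, T j),
      |∑ p, m (κ j) j p * evC f (tie ord j) κ (update P j p) -
        ∑ p, m₀ j p * evC f (tie ord j) κ (update P j p)| ≤
        ε j * ∑ p, m₀ j p * evC f (tie ord j) κ (update P j p) + τ j := by
    intro j κ P
    have h := H j κ P
    simp only [hev1, one_mul] at h
    exact h
  have hη0 : ∀ j, 0 ≤ 2 * ε j + 2 ^ (tie ord j).card * τ j := fun j => by
    have := hτ j
    have := hε j
    positivity
  have hs' : ∑ j, (2 * ε j + 2 ^ (tie ord j).card * τ j) ≤ 1 / 4 := hs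
  have hmass : ∀ D : Finset I, |∑ P, wC m m₀ f D P - 1| ≤ 1 / 4 := by
    intro D
    refine (massT m m₀ f ord ε τ hm hm1 hm0 h01 hε hτ H1 hs' D.card D rfl).trans ?_
    exact (sum_le_sum_of_subset_of_nonneg (subset_univ D) fun i _ _ => hη0 i).trans hs'
  have hz : ∀ P : ∀ j, T j, ∏ j, m (f P j) j (P j) = wC m m₀ f univ P := by
    intro P
    unfold wC
    exact prod_congr rfl fun j _ => (if_pos (mem_univ j)).symm
  have hy : ∀ (n : ℕ) (P : ∀ j, T j),
      (∏ j, if ord j ≤ n then m (f P j) j (P j) else m₀ j (P j)) =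
        wC m m₀ f (univ.filter fun i => ord i < n + 1) P := by
    intro n P
    unfold wC
    refine prod_congr rfl fun j _ => ?_
    by_cases h : ord j ≤ n
    · rw [if_pos h, if_pos (mem_filter.2 ⟨mem_univ j, by omega⟩)]
    · rw [if_neg h, if_neg]
      intro h'
      have := (mem_filter.1 h').2
      omega
  simp only [hz, hy]
  refine ⟨?_, ?_, ?_⟩
  · have := (abs_le.1 (hmass univ)).1
    linarith
  · intro n
    have := (abs_le.1 (hmass (univ.filter fun i => ord i < n + 1))).2
    linarith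
  · intro n F HF
    have h1 := testT m m₀ f ord ε τ hm hm1 hm0 h01 hε hτ (fun D => by
      have := (abs_le.1 (hmass D)).2
      linarith) F (n + 1) (fun j κ P hj => by
        have h := HF j (by omega) κ P
        simp only [hev1] at h
        exact h) (univ : Finset I).card univ rfl
    have h2 : (univ.filter fun j => n + 1 ≤ ord j) = univ.filter fun j => n < ord j := by
      ext j
      simp only [mem_filter, mem_univ, true_and]
      omega
    rw [h2] at h1
    exact h1

end Pool.Agent.H17.XX
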