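import Pool.Agent.H17.EX.HYC
import Pool.Agent.H18.XX.TA

/-!
Row HYC of exh_modules (MP_0f8dca_lc).
-/

set_option autoImplicit false

namespace Pool.Agent.H17.XX

theorem pf_HYC : Pool.Agent.H18.XX.T_HYC := by
  intro U T _ _ _ _ a b F H ε τ ha hb ha1 hb1 hH hε hU hτ HF HH
  refine Pool.Agent.H17.EX.hyc U T a b F H ε τ ha hb ha1 hb1 hH hε ?_ hτ HF HH
  have h1 : 0 ≤ (Fintype.card U : ℝ) * ε := mul_nonneg (Nat.cast_nonneg _) hε
  linarith

end Pool.Agent.H17.XX
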