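import Pool.Agent.H18.XX.TB
import Pool.Agent.H66.IP.TC

/-!
Row HYZ of exh_modules (MP_0f8dca_lc): the masses of the weights, and the replacement of the blocks
of large scale.
-/

set_option autoImplicit false

namespace Pool.Agent.H17.XX

open Finset Pool.Agent.H6.NB Pool.Agent.H70.OQ Pool.Agent.H70.EH Pool.Agent.H70.EI Pool.Agent.H78.XQ
open Pool.Agent.H66.IP (Local ins sp dm IsZ scl mBp m0p)
open Pool.Agent.H66.IQ Pool.Agent.H66.AV Pool.Agent.H18.XX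

theorem pf_HYZ (hCON : Pool.Agent.H18.XX.T_CON) (hCTN : Pool.Agent.H18.XX.T_CTN)
    (hONE : Pool.Agent.H18.XX.T_ONE)
    (hMSB : Pool.Agent.H66.IP.T_MSB) : Pool.Agent.H18.XX.T_HYZ := by
  intro V E O hZ g
  have h0 : ∀ (p : {a // a ∈ E}) (c : Cz V p.1), 0 ≤ m0p (lx V) p.1 c := fun p c =>
    (hMSB (lx V) p.1).1 c
  have h1 : ∀ p : {a // a ∈ E}, ∑ c : Cz V p.1, m0p (lx V) p.1 c = 1 := fun p =>
    (hMSB (lx V) p.1).2.1
  have h2 : ∀ (b : Bool) (p : {a // a ∈ E}) (c : Cz V p.1), 0 ≤ mBp (lx V) p.1 b c :=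
    fun b p c => ((hMSB (lx V) p.1).2.2 b).1 c
  have h3 : ∀ (b : Bool) (p : {a // a ∈ E}), ∑ c : Cz V p.1, mBp (lx V) p.1 b c ≤ 1 :=
    fun b p => ((hMSB (lx V) p.1).2.2 b).2.1
  obtain ⟨-, c2, c3⟩ := hCTN V E
  obtain ⟨k1, k2, k3⟩ := hCON {a // a ∈ E} (fun p => Cz V p.1) (fun p => scl (lx V) p.1)
    (fun p => m0p (lx V) p.1) (fun b p => mBp (lx V) p.1 b) (fun P p => ax V (O P g) p.1)
    (fun p => (1 / 2) ^ scl (lx V) p.1 ^ 3) (fun p => 1 / 2 ^ 2 ^ (scl (lx V) p.1 + 3))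
    h0 h1 h2 h3 (fun p => by positivity) (fun p => by positivity)
    (fun p => hONE V E O hZ g p) c2
  refine ⟨fun P => ⟨?_, fun s => ?_⟩, k1, k2, fun s Φ hs HΦ => ?_⟩
  · exact prod_nonneg fun p _ => h2 _ p _
  · refine prod_nonneg fun p _ => ?_
    split_ifs
    · exact h2 _ p _
    · exact h0 p _
  · exact (k3 s Φ fun p hp => HΦ p hp).trans (c3 s hs)

end Pool.Agent.H17.XX
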